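import Pool.Agent.Y968.SV.Basic

/-!
# Small soluble varieties are recognised by the Hopf property of one group

For a soluble variety `V` of groups let `T(V)` be the group with the generators `b`, `m`, `t` and the
defining relations, relative to `V`, `[b, t^(-k) m t^k] = 1` for `k ≥ 0`. If this one group is
Hopfian then `V` is small; in fact `V` then contains only countably many finitely generated groups
up to isomorphism, all of them satisfy the maximal condition on normal subgroups, are Hopfian, and
are nilpotent-by-(nilpotent-by-finite).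
-/

set_option autoImplicit false

namespace Pool.Agent.Results.MP_ab1175_al.OneTestGroup

open scoped commutatorElement

/-- `G` belongs to the variety of groups defined by the laws `w = 1`, `w ∈ W`. -/
def InVariety (W : Set (FreeGroup ℕ)) (G : Type) [Group G] : Prop :=
  ∀ w ∈ W, ∀ f : ℕ → G, FreeGroup.lift f w = 1

/-- the variety defined by `W` is soluble: the derived lengths of its groups are bounded. -/
def SolubleVariety (W : Set (FreeGroup ℕ)) : Prop :=
  ∃ d : ℕ, ∀ (G : Type) [Group G], InVariety W G → derivedSeries G d = ⊥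

/-- `G` is Hopfian: every surjective endomorphism is injective. -/
def Hopfian (G : Type) [Group G] : Prop :=
  ∀ φ : G →* G, Function.Surjective φ → Function.Injective φ

/-- `G` is generated by three elements. -/
def ThreeGenerated (G : Type) [Group G] : Prop :=
  ∃ a b c : G, Subgroup.closure {a, b, c} = ⊤

/-- `G` satisfies the maximal condition on normal subgroups: every normal subgroup of `G` is the
normal closure of a finite set. -/
def MaxNormal (G : Type) [Group G] : Prop :=
  ∀ N : Subgroup G, N.Normal → ∃ S : Finset G, N = Subgroup.normalClosure (S : Set G)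

/-- the lower central series of the group `H`, as subgroups of `G`. -/
def lcs {G : Type} [Group G] (H : Subgroup G) : ℕ → Subgroup G
  | 0 => H
  | k + 1 => ⁅lcs H k, H⁆

/-- `G` is nilpotent-by-(nilpotent-by-finite): it has a normal subgroup `H` of finite index such
that some term of the lower central series of `H` is nilpotent. -/
def NilpotentByNilpotentByFinite (G : Type) [Group G] : Prop :=
  ∃ H : Subgroup G, H.Normal ∧ H.FiniteIndex ∧ ∃ k c : ℕ, lcs (lcs H k) c = ⊥

/-- there are only countably many isomorphism classes of finitely generated groups in the variety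
defined by `W`: every family of pairwise non-isomorphic finitely generated groups in it is
countable. -/
def CountableVariety (W : Set (FreeGroup ℕ)) : Prop :=
  ∀ (ι : Type) (G : ι → Type) [∀ i, Group (G i)], (∀ i, Group.FG (G i)) →
    (∀ i, InVariety W (G i)) → (∀ i j, Nonempty (G i ≃* G j) → i = j) → Countable ι

/-- the variety defined by `W` is small: every family of pairwise non-isomorphic finitely generated
groups in it has fewer than `2^ℵ₀` members. -/
def SmallVariety (W : Set (FreeGroup ℕ)) : Prop :=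
  ∀ (ι : Type) (G : ι → Type) [∀ i, Group (G i)], (∀ i, Group.FG (G i)) →
    (∀ i, InVariety W (G i)) → (∀ i j, Nonempty (G i ≃* G j) → i = j) →
    Cardinal.mk ι < Cardinal.continuum

/-- the relators of the test group: all values of the words of `W` in the free group on `b`, `m`,
`t` (the free generators `0`, `1`, `2`), and the commutators `[b, t^(-k) m t^k]`, `k ≥ 0`. -/
def relators (W : Set (FreeGroup ℕ)) : Set (FreeGroup (Fin 3)) :=
  {x | ∃ w ∈ W, ∃ f : ℕ → FreeGroup (Fin 3), x = FreeGroup.lift f w} ∪
    {x | ∃ k : ℕ, x = ⁅(FreeGroup.of 0 : FreeGroup (Fin 3)),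
      FreeGroup.of 2 ^ (-(k : ℤ)) * FreeGroup.of 1 * FreeGroup.of 2 ^ (k : ℤ)⁆}

/-- the test group of the variety defined by `W`. -/
abbrev TestGroup (W : Set (FreeGroup ℕ)) : Type :=
  FreeGroup (Fin 3) ⧸ Subgroup.normalClosure (relators W)

open Pool.Agent.H53R2 Pool.Agent.Y968.SV

theorem testEquiv (W : Set (FreeGroup ℕ)) :
    Nonempty ((RF W 3 ⧸ Subgroup.normalClosure {x : RF W 3 | ∃ k : ℕ, x =
      ⁅(RF.gen W 0 : RF W 3), RF.gen W 2 ^ (-(k : ℤ)) * RF.gen W 1 * RF.gen W 2 ^ (k : ℤ)⁆}) ≃*
      TestGroup W) := by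
  have h := quot_two {x | ∃ w ∈ W, ∃ f : ℕ → FreeGroup (Fin 3), x = FreeGroup.lift f w}
    {x | ∃ k : ℕ, x = ⁅(FreeGroup.of 0 : FreeGroup (Fin 3)),
      FreeGroup.of 2 ^ (-(k : ℤ)) * FreeGroup.of 1 * FreeGroup.of 2 ^ (k : ℤ)⁆}
  have himg : QuotientGroup.mk' (verb W 3) ''
      {x | ∃ k : ℕ, x = ⁅(FreeGroup.of 0 : FreeGroup (Fin 3)),
        FreeGroup.of 2 ^ (-(k : ℤ)) * FreeGroup.of 1 * FreeGroup.of 2 ^ (k : ℤ)⁆} =
      {x : RF W 3 | ∃ k : ℕ, x =
        ⁅(RF.gen W 0 : RF W 3), RF.gen W 2 ^ (-(k : ℤ)) * RF.gen W 1 * RF.gen W 2 ^ (k : ℤ)⁆} := by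
    ext x
    constructor
    · rintro ⟨_, ⟨k, rfl⟩, rfl⟩
      refine ⟨k, ?_⟩
      rw [map_commutatorElement, map_mul, map_mul, map_zpow, map_zpow]
      rfl
    · rintro ⟨k, rfl⟩
      refine ⟨_, ⟨k, rfl⟩, ?_⟩
      rw [map_commutatorElement, map_mul, map_mul, map_zpow, map_zpow]
      rfl
  have h2 : Nonempty ((RF W 3 ⧸ Subgroup.normalClosure (QuotientGroup.mk' (verb W 3) ''
      {x | ∃ k : ℕ, x = ⁅(FreeGroup.of 0 : FreeGroup (Fin 3)),
        FreeGroup.of 2 ^ (-(k : ℤ)) * FreeGroup.of 1 * FreeGroup.of 2 ^ (k : ℤ)⁆})) ≃*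
      TestGroup W) := h
  rw [himg] at h2
  exact h2

theorem threeGen (W : Set (FreeGroup ℕ)) (N : Subgroup (RF W 3)) [N.Normal] :
    ThreeGenerated (RF W 3 ⧸ N) := by
  refine ⟨QuotientGroup.mk' N (RF.gen W 0), QuotientGroup.mk' N (RF.gen W 1),
    QuotientGroup.mk' N (RF.gen W 2), ?_⟩
  rw [← gen_quot W 3 N]
  congr 1
  ext x
  constructor
  · rintro (rfl | rfl | rfl)
    · exact ⟨0, rfl⟩
    · exact ⟨1, rfl⟩
    · exact ⟨2, rfl⟩
  · rintro ⟨i, rfl⟩
    fin_cases i
    · exact Or.inl rfl
    · exact Or.inr (Or.inl rfl)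
    · exact Or.inr (Or.inr rfl)

theorem lcs_eq {G : Type} [Group G] (H : Subgroup G) (k : ℕ) : lcs H k = Lw H k H := by
  induction k with
  | zero => rfl
  | succ k ih => rw [Lw_succ, ← ih]; rfl

theorem nnf_of_vn {G : Type} [Group G] (h : VN G) : NilpotentByNilpotentByFinite G := by
  obtain ⟨H, h1, h2, k, c, h3⟩ := h
  refine ⟨H, h1, h2, k, c, ?_⟩
  rw [lcs_eq, lcs_eq, h3]

/-- **A soluble variety `V` is small if and only if one explicit 3-generator group `T(V)` is
Hopfian.** Here `T(V)` is the group generated by `b`, `m`, `t` in `V` with the relations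
`[b, t^(-k) m t^k] = 1`, `k ≥ 0`. Equivalent are also: all 3-generator groups in `V` are Hopfian; all
finitely generated groups in `V` are Hopfian; they satisfy the maximal condition on normal subgroups;
there are only countably many of them. Moreover they are then nilpotent-by-(nilpotent-by-finite). -/
theorem result (W : Set (FreeGroup ℕ)) (hsol : SolubleVariety W) :
    List.TFAE [
      Hopfian (TestGroup W),
      ∀ (G : Type) [Group G], ThreeGenerated G → InVariety W G → Hopfian G,
      ∀ (G : Type) [Group G], Group.FG G → InVariety W G → Hopfian G,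
      ∀ (G : Type) [Group G], Group.FG G → InVariety W G → MaxNormal G,
      CountableVariety W,
      SmallVariety W] ∧
    (Hopfian (TestGroup W) → ∀ (G : Type) [Group G], Group.FG G → InVariety W G →
      NilpotentByNilpotentByFinite G) := by
  obtain ⟨d, hd⟩ := hsol
  obtain ⟨e⟩ := testEquiv W
  have key : Hopfian (TestGroup W) → ∀ (G : Type) [Group G], Group.FG G → InVariety W G →
      VN G ∧ MaxN G := by
    intro h G _ hfg hG
    obtain ⟨u, hu⟩ := test_UI W (Hopf.of_equiv e.symm h)
    exact U_main u d G (hu G hG) (hd G hG)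
  have h13 : Hopfian (TestGroup W) → CountableVariety W := by
    intro h ι G _ hfg hG hne
    refine countable_of_maxN W (fun n => ?_) ι G hfg hG hne
    have : Group.FG (RF W n) := QuotientGroup.fg _
    exact (key h (RF W n) this (RF_inVar W n)).2
  refine ⟨?_, fun h G _ hfg hG => nnf_of_vn (key h G hfg hG).1⟩
  tfae_have 1 → 5 := h13
  tfae_have 5 → 6 := by
    intro h ι G _ hfg hG hne
    have := h ι G hfg hG hne
    exact (Cardinal.mk_le_aleph0_iff.2 this).trans_lt Cardinal.aleph0_lt_continuum
  tfae_have 6 → 4 := by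
    intro h G _ hfg hG N hN
    have hmax : MaxN G := maxN_of_small h d hd G hG
    exact hmax.normalClosure N hN
  tfae_have 4 → 3 := by
    intro h G _ hfg hG φ hφ
    exact hopfian_of_maxN (maxN_of_closure (h G hfg hG)) φ hφ
  tfae_have 3 → 2 := by
    rintro h G _ ⟨a, b, c, habc⟩ hG
    classical
    refine h G ⟨⟨({a, b, c} : Finset G), ?_⟩⟩ hG
    rw [← habc]
    congr 1
    simp
  tfae_have 2 → 1 := by
    intro h
    refine Hopf.of_equiv e ?_
    exact h _ (threeGen W _) ((RF_inVar W 3).quot _)
  tfae_finish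

end Pool.Agent.Results.MP_ab1175_al.OneTestGroup
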